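import Mathlib
import Pool.Agent.H33.BDFP.DStmts

attribute [local instance] Pool.Agent.H33.BDFP.NV.instNACG Pool.Agent.H33.BDFP.NV.instModule
  Pool.Agent.H33.BDFP.NV.instNormedSpace Pool.Agent.H33.BDFP.NV.instFD
  Pool.Agent.H33.BDFP.NV.instComplete

/-!
Module DGB of the project BDFP (MP_c92038_an): approximate diagonalisation of blocks.
-/

open scoped ENNReal NNReal

noncomputable section

namespace Pool.Agent.H14.BDFP.DGBM

open Pool.Agent.H33.BDFP

/-- a combination of orthogonal projections has an orthonormal eigenbasis -/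
lemma exists_eigenbasis {k m : ℕ} (Q : Fin m → (Eu k →L[ℂ] Eu k)) (c : Fin m → ℂ)
    (hQ : ∀ i, IsStarProjection (Q i)) (hQQ : ∀ i j, i ≠ j → Q i * Q j = 0)
    (hsum : ∑ i, Q i = 1) :
    ∃ (j : Fin k → Fin m) (b : OrthonormalBasis (Fin k) ℂ (Eu k)),
      ∀ i, (∑ l, c l • Q l) (b i) = c (j i) • b i := by
  let S : Eu k →L[ℂ] Eu k := ∑ l : Fin m, ((l : ℕ) : ℂ) • Q l
  have hS : IsSelfAdjoint S := by
    refine isSelfAdjoint_sum Finset.univ (x := fun l : Fin m => ((l : ℕ) : ℂ) • Q l)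
      fun l _ => ?_
    change star (((l : ℕ) : ℂ) • Q l) = ((l : ℕ) : ℂ) • Q l
    rw [star_smul, (hQ l).2.star_eq]
    congr 1
    simp
  have hsym : S.toLinearMap.IsSymmetric := ContinuousLinearMap.isSelfAdjoint_iff_isSymmetric.1 hS
  let b := hsym.eigenvectorBasis (n := k) (by simp)
  have hQS : ∀ l, Q l * S = ((l : ℕ) : ℂ) • Q l := by
    intro l
    rw [Finset.mul_sum, Finset.sum_eq_single l]
    · rw [mul_smul_comm, (hQ l).1.eq]
    · intro l' _ hl'
      rw [mul_smul_comm, hQQ l l' (Ne.symm hl')]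
      exact smul_zero (A := Eu k →L[ℂ] Eu k) ((l' : ℕ) : ℂ)
    · intro h; exact absurd (Finset.mem_univ l) h
  have h1 : ∀ i, ∃ j : Fin m, Q j (b i) = b i ∧ ∀ l, l ≠ j → Q l (b i) = 0 := by
    intro i
    have hSb : S (b i) = ((hsym.eigenvalues (n := k) (by simp) i : ℝ) : ℂ) • b i :=
      hsym.apply_eigenvectorBasis (by simp) i
    set lam : ℂ := ((hsym.eigenvalues (n := k) (by simp) i : ℝ) : ℂ) with hlam
    have h2 : ∀ l : Fin m, (((l : ℕ) : ℂ) - lam) • Q l (b i) = 0 := by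
      intro l
      have e1 : (Q l * S) (b i) = lam • Q l (b i) := by
        rw [mul_apply_eq_comp, hSb, map_smul]
      rw [hQS l] at e1
      rw [sub_smul, sub_eq_zero]
      exact e1
    have hb : b i ≠ 0 := b.orthonormal.ne_zero i
    have h3 : ∑ l, Q l (b i) = b i := by
      have := congrArg (fun T : Eu k →L[ℂ] Eu k => T (b i)) hsum
      simpa [sum_apply] using this
    have h4 : ∃ j, Q j (b i) ≠ 0 := by
      by_contra hcon
      push Not at hcon
      exact hb (by rw [← h3]; exact Finset.sum_eq_zero fun l _ => hcon l)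
    obtain ⟨j, hj⟩ := h4
    have hjl : ((j : ℕ) : ℂ) = lam := by
      rcases smul_eq_zero.1 (h2 j) with h | h
      · exact sub_eq_zero.1 h
      · exact absurd h hj
    have h5 : ∀ l, l ≠ j → Q l (b i) = 0 := by
      intro l hl
      rcases smul_eq_zero.1 (h2 l) with h | h
      · rw [sub_eq_zero, ← hjl] at h
        exact absurd (Fin.ext (by exact_mod_cast h)) hl
      · exact h
    refine ⟨j, ?_, h5⟩
    rw [← h3, map_sum]
    rw [Finset.sum_eq_single j]
    · have := (hQ j).1.eq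
      have h6 : (Q j * Q j) (b i) = Q j (b i) := by rw [this]
      rw [mul_apply_eq_comp] at h6
      rw [h6]
      symm
      rw [Finset.sum_eq_single j]
      · intro l _ hl; exact h5 l hl
      · intro h; exact absurd (Finset.mem_univ j) h
    · intro l _ hl
      rw [h5 l hl, map_zero]
    · intro h; exact absurd (Finset.mem_univ j) h
  choose j hj1 hj2 using h1
  refine ⟨j, b, fun i => ?_⟩
  rw [sum_apply, Finset.sum_eq_single (j i)]
  · rw [smul_apply, hj1]
  · intro l _ hl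
    rw [smul_apply, hj2 i l hl, smul_zero]
  · intro h; exact absurd (Finset.mem_univ (j i)) h

/-- small elements in the quotient -/
lemma eventually_norm_le {B A : Type} [CStarAlgebra B] [CStarAlgebra A] {d : ℕ → ℕ}
    (π : B →⋆ₐ[ℂ] A) (ev : ∀ n, B →⋆ₐ[ℂ] (Eu (d n + 1) →L[ℂ] Eu (d n + 1)))
    (hlift : ∀ a : A, ‖a‖ < 1 → ∃ X : B, π X = a ∧ ‖X‖ < 1)
    (hker : ∀ x, π x = 0 ↔ Filter.Tendsto (fun n => ‖ev n x‖) Filter.atTop (nhds 0))
    (x : B) (ε : ℝ) (hε : 0 < ε) (hx : ‖π x‖ < ε) : ∀ᶠ n in Filter.atTop, ‖ev n x‖ < 2 * ε := by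
  obtain ⟨X, hX, hX1⟩ := hlift (((ε : ℝ) : ℂ)⁻¹ • π x) (by
    rw [norm_smul, norm_inv, Complex.norm_real, Real.norm_of_nonneg hε.le,
      inv_mul_lt_iff₀ hε, mul_one]
    exact hx)
  have hε' : ((ε : ℝ) : ℂ) ≠ 0 := by exact_mod_cast hε.ne'
  have h1 : π (x - ((ε : ℝ) : ℂ) • X) = 0 := by
    rw [map_sub, map_smul, hX, smul_smul, mul_inv_cancel₀ hε', one_smul, sub_self]
  have h2 := ((hker _).1 h1).eventually (gt_mem_nhds hε)
  filter_upwards [h2] with n hn
  have h3 : ev n x = ev n (x - ((ε : ℝ) : ℂ) • X) + ((ε : ℝ) : ℂ) • ev n X := by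
    rw [map_sub, map_smul]; abel
  have h4 : ‖ev n X‖ ≤ 1 := (NonUnitalStarAlgHom.norm_apply_le (ev n) X).trans hX1.le
  rw [h3]
  calc ‖ev n (x - ((ε : ℝ) : ℂ) • X) + ((ε : ℝ) : ℂ) • ev n X‖
      ≤ ‖ev n (x - ((ε : ℝ) : ℂ) • X)‖ + ‖((ε : ℝ) : ℂ) • ev n X‖ := norm_add_le _ _
    _ < ε + ε * 1 := by
      refine add_lt_add_of_lt_of_le hn ?_
      rw [norm_smul, Complex.norm_real, Real.norm_of_nonneg hε.le]
      exact mul_le_mul_of_nonneg_left h4 hε.le
    _ = 2 * ε := by ring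

/-- diagonal choice -/
lemma exists_diag (P : ℕ → ℕ → Prop) (h : ∀ k, ∀ᶠ n in Filter.atTop, P k n) (h0 : ∀ n, P 0 n) :
    ∃ κ : ℕ → ℕ, Filter.Tendsto κ Filter.atTop Filter.atTop ∧ ∀ n, P (κ n) n := by
  classical
  have h' : ∀ k, ∃ N, ∀ n, N ≤ n → P k n := fun k => Filter.eventually_atTop.1 (h k)
  choose N hN using h'
  refine ⟨fun n => Nat.findGreatest (fun k => P k n) n, ?_, fun n =>
    Nat.findGreatest_spec (P := fun k => P k n) (Nat.zero_le n) (h0 n)⟩
  rw [Filter.tendsto_atTop_atTop]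
  intro b
  refine ⟨max b (N b), fun n hn => ?_⟩
  exact Nat.le_findGreatest ((le_max_left _ _).trans hn) (hN b n ((le_max_right _ _).trans hn))

/-- Module DGB. -/
theorem dgb (hP : Pair2Stmt) (hF : FRStmt) : DgbStmt := by
  intro d M hM hMne t C hC hcomm hinv
  obtain ⟨B, A, iB, iA, iN, π, ev, hgood, hext, hex, hker, hlft⟩ := hP d
  obtain ⟨T, hT⟩ := hex t ⟨C, hC⟩
  -- the image is normal
  have hnorm : IsStarNormal (π T) := by
    refine ⟨?_⟩
    change star (π T) * π T = π T * star (π T)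
    rw [← sub_eq_zero, ← map_star, ← map_mul, ← map_mul, ← map_sub, hker]
    refine hcomm.congr fun n => ?_
    rw [map_sub, map_mul, map_mul, map_star, hT]
  -- the spectrum
  have hspec : ∀ μ, μ ∉ M → IsUnit (π T - algebraMap ℂ A μ) := by
    intro μ hμ
    obtain ⟨s, C', hs, hs1, hs2⟩ := hinv μ hμ
    obtain ⟨S, hS⟩ := hex s ⟨C', hs⟩
    have e1 : π (S * (T - algebraMap ℂ B μ) - 1) = 0 := by
      rw [hker]
      refine hs1.congr fun n => ?_
      rw [map_sub, map_mul, map_sub, map_one, hT, hS, AlgHomClass.commutes,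
        Algebra.algebraMap_eq_smul_one]
    have e2 : π ((T - algebraMap ℂ B μ) * S - 1) = 0 := by
      rw [hker]
      refine hs2.congr fun n => ?_
      rw [map_sub, map_mul, map_sub, map_one, hT, hS, AlgHomClass.commutes,
        Algebra.algebraMap_eq_smul_one]
    rw [map_sub, map_mul, map_sub, map_one, AlgHomClass.commutes, sub_eq_zero] at e1 e2
    exact ⟨⟨π T - algebraMap ℂ A μ, π S, e2, e1⟩, rfl⟩
  have hspec2 : spectrum ℂ (π T) ⊆ M := by
    intro μ hμ
    by_contra hcon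
    rw [spectrum.mem_iff, ← neg_sub, IsUnit.neg_iff] at hμ
    exact hμ (hspec μ hcon)
  have hspecne : (spectrum ℂ (π T)).Nonempty := spectrum.nonempty (π T)
  obtain ⟨μ₀, hμ₀⟩ := hspecne
  -- the approximations
  have hFR := hF B A π hgood (π T) hnorm (fun μ hμ => hlft _ (by
    rw [spectrum.mem_iff, not_not, ← neg_sub, IsUnit.neg_iff] at hμ
    exact hμ))
  have happ : ∀ k : ℕ, ∃ X : B, ‖π (X - T)‖ < 2 / (k + 1) ∧ ∀ n,
      ∃ (μ : Fin (d n + 1) → ℂ) (b : OrthonormalBasis (Fin (d n + 1)) ℂ (Eu (d n + 1))),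
        (∀ i, μ i ∈ M) ∧ ∀ i, ev n X (b i) = μ i • b i := by
    intro k
    obtain ⟨m, Q, c, hQ1, hQ2, hQ3, hc, hle⟩ := hFR (1 / (k + 1)) (by positivity)
    refine ⟨∑ i, c i • Q i, ?_, fun n => ?_⟩
    · rw [map_sub]
      refine hle.trans_lt ?_
      have : (0 : ℝ) < k + 1 := by positivity
      rw [div_lt_div_iff_of_pos_right this]
      norm_num
    · obtain ⟨j, b, hb⟩ := exists_eigenbasis (fun i => ev n (Q i)) c
        (fun i => (hQ1 i).map (ev n)) (fun i j hij => by rw [← map_mul, hQ2 i j hij, map_zero])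
        (by rw [← map_sum, hQ3, map_one])
      refine ⟨fun i => c (j i), b, fun i => hspec2 (hc _), fun i => ?_⟩
      rw [← hb i, map_sum]
      congr 2
      funext l
      rw [map_smul]
  choose X hX1 hX2 using happ
  choose μ b hμ hb using hX2
  obtain ⟨κ, hκ1, hκ2⟩ := exists_diag
    (fun k n => k = 0 ∨ ‖ev n (X k - T)‖ < 2 * (2 / (k + 1)))
    (fun k => by
      have := eventually_norm_le π ev hgood.lift hker (X k - T) (2 / (k + 1)) (by positivity)
        (hX1 k)
      filter_upwards [this] with n hn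
      exact Or.inr hn)
    (fun n => Or.inl rfl)
  refine ⟨fun n => μ (κ n) n, fun n => b (κ n) n, fun n => ev n (X (κ n)), fun n i => hμ _ _ _,
    fun n i => hb _ _ _, ?_⟩
  have hlim : Filter.Tendsto (fun n => 2 * (2 / ((κ n : ℝ) + 1))) Filter.atTop (nhds 0) := by
    have h1 : Filter.Tendsto (fun n : ℕ => 2 * (2 * (1 / ((n : ℝ) + 1)))) Filter.atTop (nhds 0) := by
      have := (tendsto_one_div_add_atTop_nhds_zero_nat (𝕜 := ℝ)).const_mul 2
      have := this.const_mul 2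
      simpa using this
    refine (h1.comp hκ1).congr fun n => ?_
    change 2 * (2 * (1 / (((κ n : ℕ) : ℝ) + 1))) = _
    rw [mul_one_div]
  refine squeeze_zero' (Filter.Eventually.of_forall fun n => norm_nonneg _) ?_ hlim
  filter_upwards [hκ1.eventually_gt_atTop 0] with n hn
  rcases hκ2 n with h | h
  · exact absurd h hn.ne'
  · rw [map_sub, hT] at h
    rw [norm_sub_rev]
    exact h.le

end Pool.Agent.H14.BDFP.DGBM
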