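import Mathlib
import Pool.Agent.H33.BDFP.DStmts

attribute [local instance] Pool.Agent.H33.BDFP.NV.instNACG Pool.Agent.H33.BDFP.NV.instModule
  Pool.Agent.H33.BDFP.NV.instNormedSpace Pool.Agent.H33.BDFP.NV.instFD
  Pool.Agent.H33.BDFP.NV.instComplete

/-!
Module PAIR2 of the project BDFP (MP_c92038_an): bounded sequences of matrices modulo null
sequences.
-/

open scoped ENNReal NNReal

noncomputable section

namespace Pool.Agent.H14.BDFP

open Pool.Agent.H33.BDFP

/-! ### Polar decomposition in finite dimension -/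

/-- polar decomposition with a unitary -/
lemma exists_unitary_polar {k : ℕ} (T P : Eu k →L[ℂ] Eu k) (hP : IsSelfAdjoint P)
    (h : P * P = star T * T) : ∃ U ∈ unitary (Eu k →L[ℂ] Eu k), T = U * P := by
  have hn : ∀ x, ‖T x‖ = ‖P x‖ := by
    intro x
    have h1 : ‖T x‖ ^ 2 = ‖P x‖ ^ 2 := by
      have e1 : inner ℂ ((star T * T) x) x = inner ℂ (T x) (T x) := by
        rw [mul_apply_eq_comp, ContinuousLinearMap.star_eq_adjoint,
          ContinuousLinearMap.adjoint_inner_left]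
      have e2 : inner ℂ ((P * P) x) x = inner ℂ (P x) (P x) := by
        conv_lhs => rw [← hP.star_eq]
        rw [mul_apply_eq_comp, ContinuousLinearMap.star_eq_adjoint,
          ContinuousLinearMap.adjoint_inner_left, ← ContinuousLinearMap.star_eq_adjoint,
          hP.star_eq]
      rw [h, e1] at e2
      rw [inner_self_eq_norm_sq_to_K, inner_self_eq_norm_sq_to_K] at e2
      exact_mod_cast e2
    exact (sq_eq_sq₀ (norm_nonneg _) (norm_nonneg _)).1 h1
  -- the partial isometry on the range of P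
  have hker : LinearMap.ker P.toLinearMap ≤ LinearMap.ker T.toLinearMap := by
    intro x hx
    rw [LinearMap.mem_ker] at hx ⊢
    have : ‖T x‖ = 0 := by rw [hn x]; exact norm_eq_zero.2 hx
    exact norm_eq_zero.1 this
  let L0 : LinearMap.range P.toLinearMap →ₗ[ℂ] Eu k :=
    ((LinearMap.ker P.toLinearMap).liftQ T.toLinearMap hker) ∘ₗ
      (P.toLinearMap.quotKerEquivRange.symm : _ →ₗ[ℂ] _)
  have hL0 : ∀ x, L0 ⟨P x, LinearMap.mem_range_self P.toLinearMap x⟩ = T x := by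
    intro x
    have : P.toLinearMap.quotKerEquivRange.symm
        ⟨P x, LinearMap.mem_range_self P.toLinearMap x⟩ = Submodule.Quotient.mk x := by
      rw [LinearEquiv.symm_apply_eq]
      rfl
    change ((LinearMap.ker P.toLinearMap).liftQ T.toLinearMap hker)
      (P.toLinearMap.quotKerEquivRange.symm _) = _
    rw [this]
    rfl
  let L : LinearMap.range P.toLinearMap →ₗᵢ[ℂ] Eu k :=
    { L0 with
      norm_map' := by
        rintro ⟨y, x, rfl⟩
        exact (congrArg norm (hL0 x)).trans (hn x) }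
  let E : Eu k →ₗᵢ[ℂ] Eu k := L.extend
  have hE : ∀ x, E (P x) = T x := by
    intro x
    have := LinearIsometry.extend_apply L ⟨P x, LinearMap.mem_range_self P.toLinearMap x⟩
    exact this.trans (hL0 x)
  let U : Eu k →L[ℂ] Eu k := E.toContinuousLinearMap
  have hU : star U * U = 1 := by
    rw [ContinuousLinearMap.star_eq_adjoint]
    exact (ContinuousLinearMap.norm_map_iff_adjoint_comp_self U).1 (fun x => E.norm_map x)
  have hU2 : U * star U = 1 := by
    have h1 : (star U).toLinearMap * U.toLinearMap = 1 := by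
      rw [← ContinuousLinearMap.toLinearMap_mul, hU]; rfl
    have h2 := mul_eq_one_comm.1 h1
    ext1 x
    exact LinearMap.congr_fun h2 x
  refine ⟨U, Unitary.mem_iff.2 ⟨hU, hU2⟩, ?_⟩
  ext1 x
  exact (hE x).symm

/-! ### The algebra of bounded sequences -/

/-- bounded sequences in C*-algebras -/
@[reducible] def lpCS (A : ℕ → Type) [∀ i, Nontrivial (A i)] [∀ i, CStarAlgebra (A i)] :
    CStarAlgebra (lp A ∞) where

section Alg

/-- the algebra of bounded sequences of matrices -/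
def BAlg (d : ℕ → ℕ) : Type := lp (fun n => Eu (d n + 1) →L[ℂ] Eu (d n + 1)) ∞

instance (d : ℕ → ℕ) : CStarAlgebra (BAlg d) := lpCS (fun n => Eu (d n + 1) →L[ℂ] Eu (d n + 1))

variable {d : ℕ → ℕ}

/-- evaluation -/
def ev (n : ℕ) : BAlg d →⋆ₐ[ℂ] (Eu (d n + 1) →L[ℂ] Eu (d n + 1)) where
  toFun (x : lp (fun n => Eu (d n + 1) →L[ℂ] Eu (d n + 1)) ∞) := x n
  map_one' := rfl
  map_mul' _ _ := rfl
  map_zero' := rfl
  map_add' _ _ := rfl
  commutes' _ := rfl
  map_star' _ := rfl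

lemma norm_ev_le (x : BAlg d) (n : ℕ) : ‖ev n x‖ ≤ ‖x‖ :=
  lp.norm_apply_le_norm (p := ∞) (by simp)
    (show lp (fun n => Eu (d n + 1) →L[ℂ] Eu (d n + 1)) ∞ from x) n

lemma ev_ext {x y : BAlg d} (h : ∀ n, ev n x = ev n y) : x = y :=
  lp.ext (E := fun n => Eu (d n + 1) →L[ℂ] Eu (d n + 1)) (funext h)

/-- element with given bounded components -/
def mk (t : ∀ n, Eu (d n + 1) →L[ℂ] Eu (d n + 1)) (h : ∃ C, ∀ n, ‖t n‖ ≤ C) : BAlg d :=
  show lp (fun n => Eu (d n + 1) →L[ℂ] Eu (d n + 1)) ∞ from ⟨t, memℓp_infty (by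
    obtain ⟨C, hC⟩ := h
    exact ⟨C, by rintro _ ⟨n, rfl⟩; exact hC n⟩)⟩

lemma ev_mk (t : ∀ n, Eu (d n + 1) →L[ℂ] Eu (d n + 1)) (h : ∃ C, ∀ n, ‖t n‖ ≤ C) (n : ℕ) :
    ev n (mk t h) = t n := rfl

/-- the null sequences -/
def nullSeq (d : ℕ → ℕ) : Set (BAlg d) :=
  {x | Filter.Tendsto (fun n => ‖ev n x‖) Filter.atTop (nhds 0)}

lemma isClosed_nullSeq : IsClosed (nullSeq d) := by
  rw [← isSeqClosed_iff_isClosed]
  intro u x hu hx
  change Filter.Tendsto _ _ _
  rw [Metric.tendsto_atTop] at hx ⊢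
  intro ε hε
  obtain ⟨k, hk⟩ := hx (ε / 2) (by positivity)
  have h1 := hk k le_rfl
  have h2 : Filter.Tendsto (fun n => ‖ev n (u k)‖) Filter.atTop (nhds 0) := hu k
  rw [Metric.tendsto_atTop] at h2
  obtain ⟨N, hN⟩ := h2 (ε / 2) (by positivity)
  refine ⟨N, fun n hn => ?_⟩
  have h3 := hN n hn
  rw [Real.dist_eq, sub_zero, abs_of_nonneg (norm_nonneg _)] at h3 ⊢
  rw [dist_eq_norm] at h1
  have h4 : ‖ev n (u k - x)‖ ≤ ‖u k - x‖ := norm_ev_le _ n
  have h5 : ev n x = ev n (u k) - ev n (u k - x) := by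
    rw [map_sub]; abel
  rw [h5]
  calc ‖ev n (u k) - ev n (u k - x)‖ ≤ ‖ev n (u k)‖ + ‖ev n (u k - x)‖ := norm_sub_le _ _
    _ < ε / 2 + ε / 2 := add_lt_add_of_lt_of_le h3 (h4.trans h1.le)
    _ = ε := by ring


lemma nullSeq_add {x y : BAlg d} (hx : x ∈ nullSeq d) (hy : y ∈ nullSeq d) :
    x + y ∈ nullSeq d := by
  have h : Filter.Tendsto (fun n => ‖ev n x‖ + ‖ev n y‖) Filter.atTop (nhds 0) := by
    simpa using Filter.Tendsto.add (show Filter.Tendsto _ _ _ from hx)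
      (show Filter.Tendsto _ _ _ from hy)
  refine squeeze_zero (fun n => norm_nonneg _) (fun n => ?_) h
  rw [map_add]
  exact norm_add_le _ _

lemma nullSeq_mul_left {x : BAlg d} (hx : x ∈ nullSeq d) (y : BAlg d) : y * x ∈ nullSeq d := by
  have h : Filter.Tendsto (fun n => ‖y‖ * ‖ev n x‖) Filter.atTop (nhds 0) := by
    simpa using Filter.Tendsto.const_mul ‖y‖ (show Filter.Tendsto _ _ _ from hx)
  refine squeeze_zero (fun n => norm_nonneg _) (fun n => ?_) h
  rw [map_mul]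
  exact (norm_mul_le _ _).trans (mul_le_mul_of_nonneg_right (norm_ev_le y n) (norm_nonneg _))

lemma nullSeq_mul_right {x : BAlg d} (hx : x ∈ nullSeq d) (y : BAlg d) : x * y ∈ nullSeq d := by
  have h : Filter.Tendsto (fun n => ‖ev n x‖ * ‖y‖) Filter.atTop (nhds 0) := by
    simpa using Filter.Tendsto.mul_const ‖y‖ (show Filter.Tendsto _ _ _ from hx)
  refine squeeze_zero (fun n => norm_nonneg _) (fun n => ?_) h
  rw [map_mul]
  exact (norm_mul_le _ _).trans (mul_le_mul_of_nonneg_left (norm_ev_le y n) (norm_nonneg _))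

lemma nullSeq_star {x : BAlg d} (hx : x ∈ nullSeq d) : star x ∈ nullSeq d := by
  have h : Filter.Tendsto (fun n => ‖ev n x‖) Filter.atTop (nhds 0) := hx
  refine h.congr fun n => ?_
  rw [map_star]
  exact (norm_star (ev n x)).symm

lemma mem_unitary_of_ev {x : BAlg d} (h : ∀ n, ev n x ∈ unitary (Eu (d n + 1) →L[ℂ] Eu (d n + 1))) :
    x ∈ unitary (BAlg d) := by
  refine Unitary.mem_iff.2 ⟨ev_ext fun n => ?_, ev_ext fun n => ?_⟩
  · rw [map_mul, map_star, map_one]
    exact (Unitary.mem_iff.1 (h n)).1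
  · rw [map_mul, map_star, map_one]
    exact (Unitary.mem_iff.1 (h n)).2

/-- polar decomposition in the algebra of bounded sequences -/
lemma exists_polar (Y S : BAlg d) (hS : IsSelfAdjoint S) (h : S * S = star Y * Y) :
    ∃ U ∈ unitary (BAlg d), Y = U * S := by
  have h1 : ∀ n, ∃ U ∈ unitary (Eu (d n + 1) →L[ℂ] Eu (d n + 1)), ev n Y = U * ev n S := by
    intro n
    refine exists_unitary_polar (ev n Y) (ev n S) ?_ ?_
    · change star _ = _
      rw [← map_star, hS.star_eq]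
    · rw [← map_mul, h, map_mul, map_star]
  choose U hU hY using h1
  refine ⟨mk U ⟨1, fun n => ?_⟩, mem_unitary_of_ev hU, ev_ext fun n => ?_⟩
  · exact (CStarRing.norm_of_mem_unitary (hU n)).le
  · rw [map_mul, ev_mk]
    exact hY n

/-- range projections -/
lemma exists_rickart (Y : BAlg d) :
    ∃ Q : BAlg d, IsStarProjection Q ∧ Q * Y = Y ∧ ∀ Z : BAlg d, Z * Y = 0 → Z * Q = 0 := by
  have hb : ∀ n, ‖(LinearMap.range (ev n Y).toLinearMap).starProjection‖ ≤ 1 := fun n =>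
    Submodule.starProjection_norm_le _
  refine ⟨mk (fun n => (LinearMap.range (ev n Y).toLinearMap).starProjection) ⟨1, hb⟩,
    ⟨?_, ?_⟩, ?_, ?_⟩
  · refine ev_ext fun n => ?_
    rw [map_mul, ev_mk]
    exact (isStarProjection_starProjection (U := LinearMap.range (ev n Y).toLinearMap)).1
  · refine ev_ext fun n => ?_
    rw [map_star, ev_mk]
    exact (isStarProjection_starProjection (U := LinearMap.range (ev n Y).toLinearMap)).2
  · refine ev_ext fun n => ?_
    rw [map_mul, ev_mk]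
    ext1 x
    exact Submodule.starProjection_eq_self_iff.2 (LinearMap.mem_range_self _ x)
  · intro Z hZ
    refine ev_ext fun n => ?_
    rw [map_mul, ev_mk, map_zero]
    ext1 x
    have h1 : (LinearMap.range (ev n Y).toLinearMap).starProjection x ∈
        LinearMap.range (ev n Y).toLinearMap := Submodule.starProjection_apply_mem _ x
    obtain ⟨y, hy⟩ := h1
    change ev n Z ((LinearMap.range (ev n Y).toLinearMap).starProjection x) = 0
    rw [← hy]
    change (ev n Z * ev n Y) y = 0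
    rw [← map_mul, hZ, map_zero]
    rfl

end Alg

/-! ### The absolute value in the quotient -/

lemma abs_facts {B A : Type} [CStarAlgebra B] [CStarAlgebra A] (π : B →⋆ₐ[ℂ] A) (Y : B)
    (hy : IsStarNormal (π Y)) : ∃ S : B, IsSelfAdjoint S ∧ S * S = star Y * Y ∧
      π S = cfc (fun z : ℂ => (‖z‖ : ℂ)) (π Y) := by
  let _ : PartialOrder B := CStarAlgebra.spectralOrder B
  let _ : StarOrderedRing B := CStarAlgebra.spectralOrderedRing B
  let _ : PartialOrder A := CStarAlgebra.spectralOrder A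
  let _ : StarOrderedRing A := CStarAlgebra.spectralOrderedRing A
  refine ⟨CFC.abs Y, (CFC.abs_nonneg Y).isSelfAdjoint, CFC.abs_mul_abs Y, ?_⟩
  have h0 : (0 : B) ≤ CFC.abs Y := CFC.abs_nonneg Y
  have h1 : (0 : A) ≤ π (CFC.abs Y) := by
    have h2 : CFC.sqrt (CFC.abs Y) * CFC.sqrt (CFC.abs Y) = CFC.abs Y :=
      CFC.sqrt_mul_sqrt_self (CFC.abs Y) h0
    have h3 : star (CFC.sqrt (CFC.abs Y)) = CFC.sqrt (CFC.abs Y) :=
      (CFC.sqrt_nonneg (CFC.abs Y)).isSelfAdjoint.star_eq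
    have h4 : π (CFC.abs Y) = star (π (CFC.sqrt (CFC.abs Y))) * π (CFC.sqrt (CFC.abs Y)) := by
      rw [← map_star, ← map_mul, h3, h2]
    rw [h4]
    exact star_mul_self_nonneg _
  have h2 : CFC.abs (π Y) = π (CFC.abs Y) := by
    refine CFC.sqrt_unique ?_ h1
    rw [← map_mul, CFC.abs_mul_abs, map_mul, map_star]
  rw [← h2, CFC.abs_eq_cfcₙ_coe_norm ℂ (π Y) hy, cfcₙ_eq_cfc]
  rfl

/-! ### Invertible elements lift -/

lemma exists_inv_of_near {k : ℕ} (T S : Eu k →L[ℂ] Eu k) (h : ‖S * T - 1‖ ≤ 1 / 2) :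
    ∃ R : Eu k →L[ℂ] Eu k, R * T = 1 ∧ T * R = 1 ∧ ‖R‖ ≤ 2 * ‖S‖ := by
  rcases subsingleton_or_nontrivial (Eu k →L[ℂ] Eu k) with hs | hs
  · exact ⟨S, Subsingleton.elim _ _, Subsingleton.elim _ _, by
      nlinarith [norm_nonneg S]⟩
  have h1 : ‖1 - S * T‖ < 1 := by
    rw [norm_sub_rev]
    linarith
  let u : (Eu k →L[ℂ] Eu k)ˣ := Units.oneSub (1 - S * T) h1
  have hu : (u : Eu k →L[ℂ] Eu k) = S * T := by
    change 1 - (1 - S * T) = S * T
    abel
  have hR : ((u⁻¹ : (Eu k →L[ℂ] Eu k)ˣ) : Eu k →L[ℂ] Eu k) * S * T = 1 := by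
    rw [mul_assoc, ← hu, Units.inv_mul]
  refine ⟨((u⁻¹ : (Eu k →L[ℂ] Eu k)ˣ) : Eu k →L[ℂ] Eu k) * S, hR, ?_, ?_⟩
  · have h2 : (((u⁻¹ : (Eu k →L[ℂ] Eu k)ˣ) : Eu k →L[ℂ] Eu k) * S).toLinearMap * T.toLinearMap
        = 1 := by
      rw [← ContinuousLinearMap.toLinearMap_mul, hR]; rfl
    have h3 := mul_eq_one_comm.1 h2
    ext1 x
    exact LinearMap.congr_fun h3 x
  · have h4 : ‖((u⁻¹ : (Eu k →L[ℂ] Eu k)ˣ) : Eu k →L[ℂ] Eu k)‖ ≤ 2 := by
      set V := ((u⁻¹ : (Eu k →L[ℂ] Eu k)ˣ) : Eu k →L[ℂ] Eu k) with hV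
      have h5 : V = 1 - V * (S * T - 1) := by
        rw [mul_sub, mul_one, ← mul_assoc, hR]; abel
      have h6 : ‖V‖ ≤ 1 + ‖V‖ * (1 / 2) := by
        calc ‖V‖ = ‖1 - V * (S * T - 1)‖ := by rw [← h5]
          _ ≤ ‖(1 : Eu k →L[ℂ] Eu k)‖ + ‖V * (S * T - 1)‖ := norm_sub_le _ _
          _ ≤ 1 + ‖V‖ * (1 / 2) := by
            refine add_le_add (le_of_eq norm_one) ((norm_mul_le _ _).trans ?_)
            exact mul_le_mul_of_nonneg_left h (norm_nonneg _)
      linarith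
    exact (norm_mul_le _ _).trans (mul_le_mul_of_nonneg_right h4 (norm_nonneg _))

/-- Module PAIR2. -/
theorem pair2 (hQ : QuoStmt) : Pair2Stmt := by
  intro d
  obtain ⟨A, iA, π, hker, hlift⟩ := hQ (BAlg d) (nullSeq d) isClosed_nullSeq
    (by
      change Filter.Tendsto (fun n => ‖ev n (0 : BAlg d)‖) Filter.atTop (nhds 0)
      simp)
    (fun x hx y hy => nullSeq_add hx hy)
    (fun x hx y => ⟨nullSeq_mul_left hx y, nullSeq_mul_right hx y⟩)
    (fun x hx => nullSeq_star hx)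
  have hA : Nontrivial A := by
    refine ⟨1, 0, fun h => ?_⟩
    have h1 : (1 : BAlg d) ∈ nullSeq d := (hker 1).1 (by rw [map_one, h])
    have h2 : Filter.Tendsto (fun n => ‖ev n (1 : BAlg d)‖) Filter.atTop (nhds 0) := h1
    have h3 : (fun n => ‖ev n (1 : BAlg d)‖) = fun _ => (1 : ℝ) := by
      funext n
      rw [map_one, norm_one]
    rw [h3] at h2
    exact one_ne_zero (tendsto_nhds_unique tendsto_const_nhds h2)
  have hsurj : Function.Surjective π := by
    intro a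
    have hpos : 0 < ‖a‖ + 1 := by positivity
    obtain ⟨X, hX, -⟩ := hlift (((‖a‖ + 1 : ℝ) : ℂ)⁻¹ • a) (by
      rw [norm_smul, norm_inv, Complex.norm_real, Real.norm_of_nonneg hpos.le,
        inv_mul_lt_iff₀ hpos]
      linarith)
    refine ⟨((‖a‖ + 1 : ℝ) : ℂ) • X, ?_⟩
    rw [map_smul, hX, smul_smul, mul_inv_cancel₀, one_smul]
    exact_mod_cast hpos.ne'
  refine ⟨BAlg d, A, inferInstance, iA, hA, π, ev, ⟨hlift, exists_rickart, ?_⟩,
    fun x hx => ev_ext fun n => by rw [hx n, map_zero], fun t ht => ⟨mk t ht, fun n => ev_mk t ht n⟩,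
    fun x => hker x, ?_⟩
  · -- polar decomposition
    intro y hy _ η _
    obtain ⟨Y, rfl⟩ := hsurj y
    obtain ⟨S, hS1, hS2, hS3⟩ := abs_facts π Y hy
    obtain ⟨U, hU, hYU⟩ := exists_polar Y S hS1 hS2
    refine ⟨U, hU, fun k hk _ => ?_⟩
    have e1 : cfc (fun z : ℂ => z * k z) (π Y) = π Y * cfc k (π Y) := by
      rw [cfc_mul (fun z : ℂ => z) k (π Y) (by fun_prop) hk.continuousOn, cfc_id' ℂ (π Y)]
    have e2 : cfc (fun z : ℂ => (‖z‖ : ℂ) * k z) (π Y) =
        cfc (fun z : ℂ => (‖z‖ : ℂ)) (π Y) * cfc k (π Y) :=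
      cfc_mul (fun z : ℂ => (‖z‖ : ℂ)) k (π Y) (by fun_prop) hk.continuousOn
    rw [e1, e2, ← hS3, ← mul_assoc, ← map_mul, ← hYU]
  · -- invertible elements lift
    intro y hy
    obtain ⟨Y, rfl⟩ := hsurj y
    obtain ⟨u, hu⟩ := hy
    obtain ⟨Z, hZ⟩ := hsurj ((u⁻¹ : Aˣ) : A)
    have h1 : Z * Y - 1 ∈ nullSeq d := by
      rw [← hker, map_sub, map_mul, hZ, ← hu, Units.inv_mul, map_one, sub_self]
    have h2 : Filter.Tendsto (fun n => ‖ev n (Z * Y - 1)‖) Filter.atTop (nhds 0) := h1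
    have h3 : ∀ᶠ n in Filter.atTop, ‖ev n (Z * Y - 1)‖ < 1 / 2 :=
      h2.eventually (gt_mem_nhds (by norm_num))
    obtain ⟨n₀, hn₀⟩ := Filter.eventually_atTop.1 h3
    have h4 : ∀ n, n₀ ≤ n → ∃ R : Eu (d n + 1) →L[ℂ] Eu (d n + 1),
        R * ev n Y = 1 ∧ ev n Y * R = 1 ∧ ‖R‖ ≤ 2 * ‖Z‖ := by
      intro n hn
      obtain ⟨R, hR1, hR2, hR3⟩ := exists_inv_of_near (ev n Y) (ev n Z) (by
        have := (hn₀ n hn).le
        rwa [map_sub, map_mul, map_one] at this)
      exact ⟨R, hR1, hR2, hR3.trans (mul_le_mul_of_nonneg_left (norm_ev_le Z n) (by norm_num))⟩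
    choose! R hR1 hR2 hR3 using h4
    let W : BAlg d := mk (fun n => if n₀ ≤ n then ev n Y else 1) ⟨max ‖Y‖ 1, fun n => by
      split_ifs
      · exact (norm_ev_le Y n).trans (le_max_left _ _)
      · rw [norm_one]; exact le_max_right _ _⟩
    let V : BAlg d := mk (fun n => if n₀ ≤ n then R n else 1) ⟨max (2 * ‖Z‖) 1, fun n => by
      split_ifs with hn
      · exact (hR3 n hn).trans (le_max_left _ _)
      · rw [norm_one]; exact le_max_right _ _⟩
    refine ⟨⟨W, V, ev_ext fun n => ?_, ev_ext fun n => ?_⟩, ?_⟩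
    · rw [map_mul, ev_mk, ev_mk, map_one]
      split_ifs with hn
      · exact hR2 n hn
      · exact one_mul 1
    · rw [map_mul, ev_mk, ev_mk, map_one]
      split_ifs with hn
      · exact hR1 n hn
      · exact one_mul 1
    · change π W = π Y
      rw [← sub_eq_zero, ← map_sub, hker]
      change Filter.Tendsto (fun n => ‖ev n (W - Y)‖) Filter.atTop (nhds 0)
      refine tendsto_const_nhds.congr' ?_
      filter_upwards [Filter.eventually_ge_atTop n₀] with n hn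
      rw [map_sub, ev_mk, if_pos hn, sub_self, norm_zero]

end Pool.Agent.H14.BDFP
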